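import Pool.Agent.H36.AO.PStmts

/-!
Module FUL: all reals of the extension have names.
-/

set_option linter.unusedVariables false
set_option linter.unusedSectionVars false
set_option synthInstance.maxSize 100000

namespace AO.BP

open SW

/-- the membership predicate -/
def fulQ (N : Type) [SetStr N] (v : Fin 2 → N) : Prop := E (v 0) (v 1)

instance fulQ_df : UDf fulQ := by unfold fulQ; infer_instance

theorem ful_df3 {M : Type} [SetStr M] [ZF M] (F : FPoset M) (h : FSFacts F) :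
    Df (fun w : Fin 3 → M => FS F fulQ (w 0) ![w 1, w 2]) := by
  refine (h.df fulQ).congr fun w => ?_
  have : (fun i : Fin 2 => w i.succ) = ![w 1, w 2] := by
    funext i
    fin_cases i <;> rfl
  rw [this]

theorem ao_ful : FULStmt := by
  intro M _ _ _ F G hG _ x hx
  have hs : FSFacts F := semF F
  have hem := embF hG
  have htf := traF hG
  obtain ⟨t, rfl⟩ : ∃ t, mk F G t = x := Quot.exists_rep x
  have h3 := ful_df3 F hs
  have _ : ∀ {n : ℕ} {r s : (Fin n → M) → M} [DfT r] [DfT s],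
      Df (fun v => FS F fulQ (r v) ![chk F (s v), t]) :=
    fun {n r s} _ _ => Df.comp3 (R := fun q z c => FS F fulQ q ![z, c]) h3 inferInstance
      inferInstance inferInstance
  have hd : Cl (fun z : M => ∃ j q : M, z = opair j q ∧ FS F fulQ q ![chk F j, t]) :=
    inferInstance
  refine ⟨sep (prod om F.P) (fun z => ∃ j q : M, z = opair j q ∧ FS F fulQ q ![chk F j, t]),
    fun z hz => ((mem_sep' hd).1 hz).1, ?_⟩
  refine ext fun j => ?_
  unfold va
  rw [mem_ev]
  have hgg : ∀ z, E z (gg F G) ↔ ∃ p, G p ∧ z = emb F G p := fun z => hem.G_mem z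
  constructor
  · intro hj
    have hjo := hx j hj
    refine ⟨hjo, ?_⟩
    rw [← htf.om] at hjo
    obtain ⟨j0, hj0, rfl⟩ := hem.trans _ _ hjo
    have hQ : fulQ (Ext F G) (fun i => mk F G (![chk F j0, t] i)) := hj
    obtain ⟨p, hp, h⟩ := (hs.truth fulQ G hG ![chk F j0, t]).1 hQ
    refine ⟨emb F G p, (hgg _).2 ⟨p, hp, rfl⟩, ?_⟩
    rw [← htf.opair, hem.mem, mem_sep' hd]
    exact ⟨mem_prod.2 ⟨hj0, hG.sub p hp⟩, j0, p, rfl, h⟩
  · rintro ⟨hjo, q, hq, h⟩
    rw [← htf.om] at hjo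
    obtain ⟨j0, hj0, rfl⟩ := hem.trans _ _ hjo
    obtain ⟨p, hp, rfl⟩ := (hgg _).1 hq
    rw [← htf.opair, hem.mem, mem_sep' hd] at h
    obtain ⟨_, j1, q1, he, h1⟩ := h
    obtain ⟨rfl, rfl⟩ := opair_inj.1 he
    exact (hs.truth fulQ G hG ![chk F j0, t]).2 ⟨p, hp, h1⟩

end AO.BP
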