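import Pool.Agent.H46.AO.TOP

/-!
Module STP: the induction step.
-/

set_option linter.unusedVariables false
set_option linter.unusedSectionVars false
set_option synthInstance.maxSize 100000

namespace AO.BP

open SW

section
variable {M : Type} [SetStr M] [ZF M]

theorem stp_ne : (emp : M) ≠ sing emp := by
  intro h
  have : E emp (emp : M) := by
    conv_rhs => rw [h]
    simp
  exact not_mem_emp _ this

theorem stp_vx (i : Bool) (x R : M) : E (vx i x) (vrt R) ↔ E x R := by
  rw [top_vrt]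
  unfold vx
  constructor
  · rintro ⟨y, hy, e | e⟩
    · rw [(opair_inj.1 e).2]; exact hy
    · rw [(opair_inj.1 e).2]; exact hy
  · intro h
    cases i
    · exact ⟨x, h, Or.inl (by simp)⟩
    · exact ⟨x, h, Or.inr (by simp)⟩

end

theorem ao_stp (hGLU : GLUStmt) (hCSU : CSUStmt) (hKLC : KLCStmt) (hKLD : KLDStmt)
    (hEVF : EVFStmt) (hABS : ABSStmt) (hCPR : CPRStmt) : STPStmt := by
  intro M _ _ _ l T F G hB _ D k d n hZ hD hDl hCh hW
  have hRI : RI F := hB.gf.le
  have hev : EvFac F G := hEVF M F G hB.mr.std hB.gen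
  have hab : AbsFac F G := hABS M F G hB.gen
  have hcp : CprFac F G := hCPR M F G hRI hB.ccc hB.gen
  have hem := embF hB.gen
  have htf := traF hB.gen
  have hko : Ord k := hCh.alf.1
  -- the values of `V`
  have hVv : ∀ v, vrt (RN F G (app (emb F G d) (emb F G v))) =
      vrt (RN F G (emb F G (app d v))) := fun v => by rw [hab.app]
  have hVm : ∀ v z, E z (vrt (RN F G (emb F G (app d v)))) ↔
      ∃ x, InR F G (app d v) x ∧ (z = opair emp x ∨ z = opair (sing emp) x) := by
    intro v z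
    rw [top_vrt]
    constructor
    · rintro ⟨x, hx, e⟩
      exact ⟨x, (hev.rn _ _).1 hx, e⟩
    · rintro ⟨x, hx, e⟩
      exact ⟨x, (hev.rn _ _).2 hx, e⟩
  have hfn : Fn1 (fun r => vrt (RN F G (app (emb F G d) r))) := inferInstance
  have he : sUn (img (emb F G k) (fun r => vrt (RN F G (app (emb F G d) r)))) =
      vrt (RN F G (emb F G D)) := by
    refine ext fun z => ?_
    rw [mem_sUn, top_vrt]
    constructor
    · rintro ⟨y, hy, hz⟩
      obtain ⟨r, hr, rfl⟩ := (mem_img' hfn).1 hy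
      obtain ⟨v, hv, rfl⟩ := hem.trans _ _ hr
      rw [hVv, hVm] at hz
      obtain ⟨x, hx, e⟩ := hz
      exact ⟨x, (hev.rn _ _).2 (hev.mono _ _ x (hCh.clo v hv).2.1 hx), e⟩
    · rintro ⟨x, hx, e⟩
      obtain ⟨τ, Y, _, hY, hYD, _, hτ, hxτ⟩ := hCSU M l T F G hB D x ((hev.rn _ _).1 hx)
      obtain ⟨v, hv, hYv⟩ := hCh.ctb Y hYD hY
      refine ⟨_, (mem_img' hfn).2 ⟨emb F G v, (hem.mem _ _).2 hv, rfl⟩, ?_⟩
      rw [hVv, hVm]
      exact ⟨x, ⟨τ, hτ.trans (vsz_PD hYv), hxτ⟩, e⟩
  rw [← he]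
  refine hGLU (Ext F G) (emb F G k) (fun r => vrt (RN F G (app (emb F G d) r))) hZ
    (htf.ord k hko) hfn ?_ ?_ ?_ ?_
  · intro r hr
    obtain ⟨v, hv, rfl⟩ := hem.trans _ _ hr
    rw [hVv]
    exact hW v hv
  · intro r r' hr hr'
    obtain ⟨v, hv, rfl⟩ := hem.trans _ _ hr
    obtain ⟨v', hv', rfl⟩ := hem.trans _ _ hr'
    rw [hVv, hVv]
    intro z hz
    rw [hVm] at hz ⊢
    obtain ⟨x, hx, e⟩ := hz
    exact ⟨x, hev.mono _ _ x (hCh.mono v v' hv hv') hx, e⟩
  · intro r z hr hz hmin
    obtain ⟨v, hv, rfl⟩ := hem.trans _ _ hr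
    rw [hVv, hVm] at hz
    obtain ⟨x, hx, e⟩ := hz
    obtain ⟨τ, Y, _, hY, hYD, _, hτ, hxτ⟩ := hCSU M l T F G hB _ x hx
    rcases hCh.cof v Y hv hYD hY with ⟨v', hv', hYv⟩ | ⟨e', he', hev', hcof⟩
    · exfalso
      refine hmin (emb F G v') ((hem.mem _ _).2 hv') ?_
      rw [hVv, hVm]
      exact ⟨x, ⟨τ, hτ.trans (vsz_PD hYv), hxτ⟩, e⟩
    · refine ⟨emb F G e', hcp.cbu e' he', (htf.sub _ _).2 hev', fun r' hr' => ?_⟩
      obtain ⟨v', hv', rfl⟩ := hem.trans _ _ hr'
      obtain ⟨u, hu, h⟩ := hcof v' hv'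
      refine ⟨emb F G u, (hem.mem _ _).2 hu, ?_⟩
      rcases h with h | rfl
      · exact Or.inl ((hem.mem _ _).2 h)
      · exact Or.inr rfl
  · intro u' r z hu' hr hz hnew
    obtain ⟨u, hu, rfl⟩ := hem.trans _ _ hu'
    obtain ⟨v, hv, rfl⟩ := hem.trans _ _ hr
    rw [hVv, hVm] at hz
    rw [hVv, hVm] at hnew
    obtain ⟨x, hx, e⟩ := hz
    obtain ⟨c1, c2, c3, c4⟩ := hCh.clo u hu
    have hxD : InR F G D x := hev.mono _ _ x (hCh.clo v hv).2.1 hx
    have hxn : ¬ InR F G (app d u) x := fun h => hnew ⟨x, h, e⟩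
    have hxo : Sub x om := by
      obtain ⟨σ, _, rfl⟩ := hxD
      exact hev.sub σ
    rcases e with rfl | rfl
    · -- a new real of the first side
      obtain ⟨C, hC, hCy⟩ := hKLC M l T F G hB (app d u) D c1 (c2.trans hDl) hD hDl c4 x hxD hxn
      refine ⟨img C (fun y => opair (sing emp) y), (ma_cba _).img _ inferInstance hC,
        fun v' hv' hnb => ?_⟩
      obtain ⟨a, b, ha, hb, h1 | h1, hzz⟩ := hnb
      · exfalso
        obtain ⟨_, h2⟩ := h1
        unfold vx at h2
        simp only [if_true] at h2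
        exact stp_ne (opair_inj.1 h2).1
      · obtain ⟨h2, h3⟩ := h1
        unfold vx at h2
        simp only [Bool.false_eq_true, if_false] at h2
        obtain ⟨_, rfl⟩ := opair_inj.1 h2
        subst h3
        rw [hVv] at hv'
        have h4 := (stp_vx _ _ _).1 hv'
        rw [mem_img' inferInstance]
        refine ⟨b, hCy b ((hev.rn _ _).1 h4) hzz, ?_⟩
        unfold vx
        simp
    · -- a new real of the second side
      by_cases hex : ∃ y, InR F G (app d u) y ∧ ZZ (rb y) (rb x)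
      · obtain ⟨y, hy, hyz⟩ := hex
        refine ⟨sing (opair emp y), ?_, fun v' hv' hnb => ?_⟩
        · refine (ma_cba _).fin ?_
          have := finF.ins (a := opair emp y) (finF.emp (M := Ext F G))
          refine (congrArg Fnt ?_).mp this
          exact ext fun z => by simp
        · obtain ⟨a, b, ha, hb, h1 | h1, hzz⟩ := hnb
          · obtain ⟨rfl, h2⟩ := h1
            unfold vx at h2
            simp only [if_true] at h2
            obtain ⟨_, rfl⟩ := opair_inj.1 h2
            rw [hVv] at hv'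
            have h4 := (stp_vx _ _ _).1 hv'
            have h5 := hKLD M l T F G hB (app d u) c1 (c2.trans hDl) x hxo hxn y a hy
              ((hev.rn _ _).1 h4) hyz hzz
            rw [mem_sing, h5]
            unfold vx
            simp
          · exfalso
            obtain ⟨h2, _⟩ := h1
            unfold vx at h2
            simp only [Bool.false_eq_true, if_false] at h2
            exact stp_ne (opair_inj.1 h2).1.symm
      · refine ⟨emp, ⟨emp, fun y hy => absurd hy (not_mem_emp y),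
          fun y _ _ hy => absurd hy (not_mem_emp y)⟩, fun v' hv' hnb => ?_⟩
        exfalso
        obtain ⟨a, b, ha, hb, h1 | h1, hzz⟩ := hnb
        · obtain ⟨rfl, h2⟩ := h1
          unfold vx at h2
          simp only [if_true] at h2
          obtain ⟨_, rfl⟩ := opair_inj.1 h2
          rw [hVv] at hv'
          have h4 := (stp_vx _ _ _).1 hv'
          exact hex ⟨a, (hev.rn _ _).1 h4, hzz⟩
        · obtain ⟨h2, _⟩ := h1
          unfold vx at h2
          simp only [Bool.false_eq_true, if_false] at h2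
          exact stp_ne (opair_inj.1 h2).1.symm

end AO.BP
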