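import Pool.Agent.H36.AO.PStmts

/-!
Module VSZ: the number of reals with names over a set of size aleph one.
-/

set_option linter.unusedVariables false
set_option linter.unusedSectionVars false
set_option synthInstance.maxSize 100000

namespace AO.BP

open SW

section
variable {M : Type} [SetStr M] [ZF M]

theorem vsz_PD {P X Y : M} (h : Sub X Y) : Sub (prod om (PD P X)) (prod om (PD P Y)) := by
  intro z hz
  obtain ⟨j, q, hj, hq, rfl⟩ := mem_prod'.1 hz
  rw [mem_PD] at hq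
  exact mem_prod.2 ⟨hj, mem_PD.2 ⟨hq.1, hq.2.trans h⟩⟩

end

theorem ao_vsz (hCBN : CBNStmt) (hSZF : SZFStmt) (hCPR : CPRStmt) (hEVF : EVFStmt)
    (hCSU : CSUStmt) (hCFA : CFAStmt) : VSZStmt := by
  intro M _ _ _ l T F G hB hch _ D hD hDs
  have hCF : CFac l T F.P := hCFA M l T F hB.mr hB.gf
  have hRI : RI F := hB.gf.le
  have hcp : CprFac F G := hCPR M F G hRI hB.ccc hB.gen
  have hev : EvFac F G := hEVF M F G hB.mr.std hB.gen
  have hsM : SzFacts M := hSZF M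
  have hsN : SzFacts (Ext F G) := hSZF (Ext F G)
  have hem := embF hB.gen
  -- the set of conditions over `D`
  have h1 : Sz 1 (PD F.P D) := by
    have h2 : Sz 1 (prod om (prod om (prod D D))) :=
      hsM.prod _ _ _ (hsM.om 1) (hsM.prod _ _ _ (hsM.om 1) (hsM.prod _ _ _ hDs hDs))
    refine hsM.sub _ _ _ (hsM.fsub _ _ h2) fun p hp => ?_
    rw [mem_PD] at hp
    rw [mem_sep' inferInstance, mem_pow]
    refine ⟨fun z hz => ?_, hCF.fnt p hp.1⟩
    obtain ⟨g, j, i, k, rfl, hj, _, _, hg, _, _⟩ := hCF.fct p z hp.1 hz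
    have hi : E i D := hp.2 _ (mem_SP.2 ⟨_, hz, Or.inl (by rw [x1_fct])⟩)
    have hk : E k D := hp.2 _ (mem_SP.2 ⟨_, hz, Or.inr (by rw [x2_fct])⟩)
    have hg' : E g om := by
      rcases hg with rfl | rfl | rfl <;> exact CUR.nu_mem_om _
    exact mem_prod.2 ⟨hg', mem_prod.2 ⟨hj, mem_prod.2 ⟨hi, hk⟩⟩⟩
  have h2 : Sz 1 (prod om (PD F.P D)) := hsM.prod _ _ _ (hsM.om 1) h1
  obtain ⟨C, hC, hCc⟩ := hCBN M 0 _ hch h2
  have h3 : Sz 1 (RN F G (emb F G D)) := by
    refine hsN.sub _ _ _ (hsN.img _ _ (fun σ => ev (gg F G) σ) inferInstance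
      (hcp.szu 1 C hC)) fun x hx => ?_
    rw [mem_img' inferInstance]
    obtain ⟨τ, Y, hτ, _, hY, _, hτY, hx'⟩ := hCSU M l T F G hB D x ((hev.rn D x).1 hx)
    refine ⟨emb F G τ, (hem.mem _ _).2 (hCc τ (hτY.trans (vsz_PD hY)) hτ), hx'⟩
  unfold vrt
  exact hsN.bun _ _ _ (hsN.img _ _ _ inferInstance h3) (hsN.img _ _ _ inferInstance h3)

end AO.BP
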