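import Pool.Agent.H46.AO.FUL
import Pool.Agent.H46.AO.VSZ
import Pool.Agent.H94.CC.Stmts
import Pool.Agent.H93.MA.CBA

/-!
Module TOP: small sets of vertices have names in small closed sets.
-/

set_option linter.unusedVariables false
set_option linter.unusedSectionVars false
set_option synthInstance.maxSize 100000

namespace AO.BP

open SW

section
variable {M : Type} [SetStr M] [ZF M]

theorem top_vrt {R v : M} : E v (vrt R) ↔ ∃ x, E x R ∧ (v = opair emp x ∨ v = opair (sing emp) x) := by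
  unfold vrt
  rw [mem_bun, mem_img' inferInstance, mem_img' inferInstance]
  constructor
  · rintro (⟨x, hx, e⟩ | ⟨x, hx, e⟩)
    · exact ⟨x, hx, Or.inl e⟩
    · exact ⟨x, hx, Or.inr e⟩
  · rintro ⟨x, hx, e | e⟩
    · exact Or.inl ⟨x, hx, e⟩
    · exact Or.inr ⟨x, hx, e⟩

end

theorem ao_top (hCSU : CSUStmt) (hCOW : COWStmt) (hSZF : SZFStmt) (hTMF : TMFStmt)
    (hEVF : EVFStmt) (hCFA : CFAStmt) (hCHS : CC.CHSStmt) : TOPStmt := by
  intro M _ _ _ l T F G hB _ n V hV hVs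
  have hCF : CFac l T F.P := hCFA M l T F hB.mr hB.gf
  have hRI : RI F := hB.gf.le
  have hev : EvFac F G := hEVF M F G hB.mr.std hB.gen
  have hsM : SzFacts M := hSZF M
  have hsN : SzFacts (Ext F G) := hSZF (Ext F G)
  have hem := embF hB.gen
  have hsp : ∀ q, E q F.P → Sub (SP q) l := by
    intro q hq i hi
    obtain ⟨z, hz, hi⟩ := mem_SP.1 hi
    obtain ⟨g, j, a, b, rfl, _, ha, hb, _, _, _⟩ := hCF.fct q z hq hz
    rw [x1_fct, x2_fct] at hi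
    rcases hi with rfl | rfl
    · exact ha
    · exact hb
  -- the set of countable names
  obtain ⟨S0, hS0⟩ : ∃ S : M, ∀ τ, E τ S ↔ Sub τ (prod om F.P) ∧ Cb τ :=
    ⟨sep (pow (prod om F.P)) (fun τ => Cb τ), fun τ => by
      rw [mem_sep' inferInstance, mem_pow]⟩
  have hname : ∀ x : Ext F G, Sub x om → ∃ τ, E τ S0 ∧ x = va F G τ := by
    intro x hx
    obtain ⟨σ, hσ, hxσ⟩ := ao_ful M F G hB.gen x hx
    have hin : InR F G l x := ⟨σ, fun z hz => by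
      obtain ⟨j, q, hj, hq, rfl⟩ := mem_prod'.1 (hσ z hz)
      exact mem_prod.2 ⟨hj, mem_PD.2 ⟨hq, hsp q hq⟩⟩, hxσ⟩
    obtain ⟨τ, Y, hτ, _, _, _, hτY, hx'⟩ := hCSU M l T F G hB l x hin
    refine ⟨τ, (hS0 τ).2 ⟨fun z hz => ?_, hτ⟩, hx'⟩
    obtain ⟨j, q, hj, hq, rfl⟩ := mem_prod'.1 (hτY z hz)
    exact mem_prod.2 ⟨hj, (mem_PD.1 hq).1⟩
  obtain ⟨g, hg⟩ := hCHS (Ext F G) V
    (fun v τ => E τ (emb F G S0) ∧ CC.snd v = ev (gg F G) τ) inferInstance (by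
      intro v hv
      obtain ⟨x, hx, e⟩ := hV v hv
      obtain ⟨τ, hτ, hxτ⟩ := hname x hx
      refine ⟨emb F G τ, (hem.mem _ _).2 hτ, ?_⟩
      rcases e with rfl | rfl
      · rw [CC.snd_opair]; exact hxτ
      · rw [CC.snd_opair]; exact hxτ)
  obtain ⟨c, hcS, hcs, hcA⟩ := hCOW M F G hRI hB.ccc hB.gen n S0 (img V (fun v => app g v))
    (fun y hy => by
      obtain ⟨v, hv, rfl⟩ := (mem_img' inferInstance).1 hy
      exact (hg v hv).1) (hsN.img _ _ _ inferInstance hVs)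
  -- the supports
  have hD0 : Sz (n + 1) (sUn (img c (fun σ => sUn (img σ (fun z => SP (CC.snd z)))))) := by
    refine hsM.mono n (n + 1) _ (Nat.le_succ n) (hsM.iUn n c _ inferInstance hcs fun σ hσ => ?_)
    have h1 := (hS0 σ).1 (hcS σ hσ)
    refine hsM.iUn n σ _ inferInstance ?_ fun z hz => ?_
    · exact hsM.mono 0 n _ (Nat.zero_le n) ((hsM.cb σ).2 h1.2)
    · obtain ⟨j, q, _, hq, rfl⟩ := mem_prod'.1 (h1.1 z hz)
      rw [CC.snd_opair]
      refine hsM.fnt n _ ?_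
      unfold SP
      exact finF.bun (finF.img _ inferInstance (hCF.fnt q hq))
        (finF.img _ inferInstance (hCF.fnt q hq))
  have hD0l : Sub (sUn (img c (fun σ => sUn (img σ (fun z => SP (CC.snd z)))))) l := by
    intro i hi
    rw [mem_sUn] at hi
    obtain ⟨y, hy, hi⟩ := hi
    obtain ⟨σ, hσ, rfl⟩ := (mem_img' inferInstance).1 hy
    rw [mem_sUn] at hi
    obtain ⟨y, hy, hi⟩ := hi
    obtain ⟨z, hz, rfl⟩ := (mem_img' inferInstance).1 hy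
    obtain ⟨j, q, _, hq, rfl⟩ := mem_prod'.1 (((hS0 σ).1 (hcS σ hσ)).1 z hz)
    rw [CC.snd_opair] at hi
    exact hsp q hq i hi
  obtain ⟨D, hD1, hD2, hD3, hD4⟩ := (hTMF M l T hB.tm).cls n _ hD0l hD0
  refine ⟨D, hD2, hD3, hD4, fun v hv => ?_⟩
  obtain ⟨h1, h2⟩ := hg v hv
  obtain ⟨σ, hσ, hσe⟩ := hem.trans _ _ (hcA _ ((mem_img' inferInstance).2 ⟨v, hv, rfl⟩))
  rw [hσe] at h2
  obtain ⟨x, hx, e⟩ := hV v hv
  have hxσ : x = va F G σ := by
    rcases e with rfl | rfl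
    · rw [CC.snd_opair] at h2; exact h2
    · rw [CC.snd_opair] at h2; exact h2
  refine top_vrt.2 ⟨x, (hev.rn D x).2 ⟨σ, fun z hz => ?_, hxσ⟩, e⟩
  obtain ⟨j, q, hj, hq, rfl⟩ := mem_prod'.1 (((hS0 σ).1 (hcS σ hσ)).1 z hz)
  refine mem_prod.2 ⟨hj, mem_PD.2 ⟨hq, fun i hi => hD1 i ?_⟩⟩
  rw [mem_sUn]
  refine ⟨_, (mem_img' inferInstance).2 ⟨σ, hσ, rfl⟩, ?_⟩
  rw [mem_sUn]
  exact ⟨_, (mem_img' inferInstance).2 ⟨_, hz, rfl⟩, by rw [CC.snd_opair]; exact hi⟩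

end AO.BP
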