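import Pool.Agent.H98.AO.Grp

/-!
Module FUP: uniqueness of solutions in free groups.
-/

namespace AO

private theorem fup_fin (m : ℕ) : ∀ (K : Type) [Group K] [Finite K], IsPGroup 2 K →
    Nat.card K ≤ m → ∀ a y z : ℕ → K, (∀ n, y n = y (n + 1) ^ 2 * a n) →
    (∀ n, z n = z (n + 1) ^ 2 * a n) → y = z := by
  induction m with
  | zero =>
    intro K _ _ _ hc
    have := Nat.card_pos (α := K)
    omega
  | succ m ih =>
    intro K _ _ hK hc a y z hy hz
    by_cases htr : Subsingleton K
    · exact Subsingleton.elim _ _
    · have hnt : Nontrivial K := not_subsingleton_iff_nontrivial.1 htr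
      have : Fact (Nat.Prime 2) := ⟨Nat.prime_two⟩
      have hcn : Nontrivial (Subgroup.center K) := hK.center_nontrivial
      have hcard : Nat.card (K ⧸ Subgroup.center K) ≤ m := by
        have h1 := Subgroup.card_eq_card_quotient_mul_card_subgroup (Subgroup.center K)
        have h2 : 1 < Nat.card (Subgroup.center K) := Finite.one_lt_card
        have h3 : 0 < Nat.card (K ⧸ Subgroup.center K) := Nat.card_pos
        nlinarith
      have h1 := ih (K ⧸ Subgroup.center K) (hK.to_quotient _) hcard
        (fun n => QuotientGroup.mk (a n)) (fun n => QuotientGroup.mk (y n))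
        (fun n => QuotientGroup.mk (z n))
        (fun n => by
          conv_lhs => rw [hy n]
          rfl)
        (fun n => by
          conv_lhs => rw [hz n]
          rfl)
      have h2 : ∀ n, ∃ c ∈ Subgroup.center K, y n = z n * c := by
        intro n
        have h3 := congrFun h1 n
        rw [eq_comm, QuotientGroup.eq] at h3
        exact ⟨_, h3, by group⟩
      choose c hc1 hc2 using h2
      have h4 : ∀ n, c n = c (n + 1) ^ 2 := by
        intro n
        have h5 := hy n
        rw [hc2 n, hc2 (n + 1)] at h5
        have h6 : (z (n + 1) * c (n + 1)) ^ 2 * a n = z n * c (n + 1) ^ 2 := by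
          have hcc : ∀ g, g * c (n + 1) = c (n + 1) * g :=
            fun g => Subgroup.mem_center_iff.1 (hc1 (n + 1)) g
          rw [hz n, (show Commute (z (n + 1)) (c (n + 1)) from hcc _).mul_pow, mul_assoc, mul_assoc]
          congr 1
          exact ((show Commute (c (n + 1)) (a n) from (hcc _).symm).pow_left 2)
        rw [h6] at h5
        exact mul_left_cancel h5
      have h7 : ∀ k n, c n = c (n + k) ^ (2 ^ k) := by
        intro k
        induction k with
        | zero => intro n; simp
        | succ k ihk =>
          intro n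
          rw [ihk n, h4 (n + k), ← pow_mul, pow_succ, mul_comm, ← add_assoc]
      obtain ⟨k, hk⟩ := (IsPGroup.iff_card).1 hK
      funext n
      rw [hc2 n, h7 k n, ← hk, pow_card_eq_one', mul_one]

theorem fup (h1 : RFGStmt) : FUPStmt := by
  intro X a y z hy hz
  funext n
  by_contra hne
  obtain ⟨K, _, _, f, hf, _, hK⟩ := h1 X (y n * (z n)⁻¹) (fun h => hne (mul_inv_eq_one.1 h))
  have h2 := fup_fin (Nat.card K) K hK le_rfl (fun n => FreeGroup.lift f (a n))
    (fun n => FreeGroup.lift f (y n)) (fun n => FreeGroup.lift f (z n))
    (fun n => by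
      conv_lhs => rw [hy n]
      simp)
    (fun n => by
      conv_lhs => rw [hz n]
      simp)
  apply hf
  rw [map_mul, map_inv, mul_inv_eq_one]
  exact congrFun h2 n

end AO
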