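import Pool.Agent.H98.AO.GStmts
import Pool.Agent.H78.CUR.NU
import Pool.Agent.H93.MA.CBT
import Pool.Agent.H35.MA.ACF

/-!
Module GEN: the subgroup generated by an internal set.
-/

set_option linter.unusedVariables false
set_option linter.unusedSectionVars false
set_option synthInstance.maxSize 100000

namespace AO

open SW

section
variable {N : Type} [SetStr N] [ZF N]

theorem gn_trp {a b c m : N} : Trp a b c m ↔ E (opair (opair a b) c) m := by
  unfold Trp
  constructor
  · rintro ⟨p, hp, h⟩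
    rw [isOP_iff] at hp
    rw [pairIn_iff] at h
    rwa [← hp]
  · intro h
    exact ⟨_, isOP_iff.2 rfl, pairIn_iff.2 h⟩

/-- the product of the components of a pair -/
noncomputable def gnmu (G m p : N) : N :=
  the (fun y => E y G ∧ E (opair (opair (CC.fst p) (CC.snd p)) y) m)

/-- the first component divided by the second component of a pair -/
noncomputable def gndi (G m p : N) : N :=
  the (fun y => E y G ∧ E (opair (opair y (CC.snd p)) (CC.fst p)) m)

theorem gnmu_df : DfT (fun v : Fin 3 → N => gnmu (v 0) (v 1) (v 2)) := by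
  unfold gnmu; infer_instance

theorem gndi_df : DfT (fun v : Fin 3 → N => gndi (v 0) (v 1) (v 2)) := by
  unfold gndi; infer_instance

instance {n : ℕ} {t s u : (Fin n → N) → N} [ht : DfT t] [hs : DfT s] [hu : DfT u] :
    DfT (fun v => gnmu (t v) (s v) (u v)) := gnmu_df.comp3 ht hs hu

instance {n : ℕ} {t s u : (Fin n → N) → N} [ht : DfT t] [hs : DfT s] [hu : DfT u] :
    DfT (fun v => gndi (t v) (s v) (u v)) := gndi_df.comp3 ht hs hu

/-- one step: all products and quotients of members of `C` and members of `X` -/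
noncomputable def gnst (G m X C : N) : N :=
  bun C (bun (img (prod C (inter X G)) (fun p => gnmu G m p))
    (img (prod C (inter X G)) (fun p => gndi G m p)))

theorem gnst_df : DfT (fun v : Fin 4 → N => gnst (v 0) (v 1) (v 2) (v 3)) := by
  unfold gnst; infer_instance

/-- the subgroup generated by `X`; `e` is the neutral element -/
noncomputable def gncl (G m e X : N) : N :=
  sUn (img om (fun n => orec (sing e) (fun C => gnst G m X C) n))

theorem gnst_fn (G m X : N) : Fn1 (fun C => gnst G m X C) := by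
  unfold gnst; infer_instance

theorem gncl_fn (G m e : N) : Fn1 (fun X => gncl G m e X) := by
  unfold gncl gnst; infer_instance

theorem gnit_fn (G m e X : N) : Fn1 (fun n => orec (sing e) (fun C => gnst G m X C) n) := by
  unfold gnst; infer_instance

variable {G m : N} [Group {x : N // E x G}]

theorem gnmu_eq (hR : Rep G m) (a b : {x : N // E x G}) :
    gnmu G m (opair a.1 b.1) = (a * b).1 := by
  unfold gnmu
  refine the_eq ⟨(a * b).2, ?_⟩ ?_
  · simp only [CC.fst_opair, CC.snd_opair]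
    exact gn_trp.1 ((hR a b (a * b)).2 rfl)
  · rintro z ⟨hz, h⟩
    simp only [CC.fst_opair, CC.snd_opair] at h
    have := (hR a b ⟨z, hz⟩).1 (gn_trp.2 h)
    rw [this]

theorem gndi_eq (hR : Rep G m) (a b : {x : N // E x G}) :
    gndi G m (opair a.1 b.1) = (a * b⁻¹).1 := by
  unfold gndi
  refine the_eq ⟨(a * b⁻¹).2, ?_⟩ ?_
  · simp only [CC.fst_opair, CC.snd_opair]
    exact gn_trp.1 ((hR (a * b⁻¹) b a).2 (by group))
  · rintro z ⟨hz, h⟩
    simp only [CC.fst_opair, CC.snd_opair] at h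
    have := (hR ⟨z, hz⟩ b a).1 (gn_trp.2 h)
    rw [← this]
    simp

/-- the members of one step -/
theorem mem_gnst (hR : Rep G m) {X C : N} (hC : ∀ x, E x C → E x G) {y : N} :
    E y (gnst G m X C) ↔ E y C ∨ ∃ a b : {x : N // E x G}, E a.1 C ∧ E b.1 X ∧
      (y = (a * b).1 ∨ y = (a * b⁻¹).1) := by
  unfold gnst
  rw [mem_bun, mem_bun, mem_img, mem_img]
  constructor
  · rintro (h | ⟨p, hp, rfl⟩ | ⟨p, hp, rfl⟩)
    · exact Or.inl h
    · obtain ⟨a, b, ha, hb, rfl⟩ := mem_prod'.1 hp
      rw [mem_inter] at hb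
      exact Or.inr ⟨⟨a, hC a ha⟩, ⟨b, hb.2⟩, ha, hb.1, Or.inl
        (gnmu_eq hR ⟨a, hC a ha⟩ ⟨b, hb.2⟩)⟩
    · obtain ⟨a, b, ha, hb, rfl⟩ := mem_prod'.1 hp
      rw [mem_inter] at hb
      exact Or.inr ⟨⟨a, hC a ha⟩, ⟨b, hb.2⟩, ha, hb.1, Or.inr
        (gndi_eq hR ⟨a, hC a ha⟩ ⟨b, hb.2⟩)⟩
  · rintro (h | ⟨a, b, ha, hb, rfl | rfl⟩)
    · exact Or.inl h
    · exact Or.inr (Or.inl ⟨opair a.1 b.1, mem_prod.2 ⟨ha, mem_inter.2 ⟨hb, b.2⟩⟩,
        (gnmu_eq hR a b).symm⟩)
    · exact Or.inr (Or.inr ⟨opair a.1 b.1, mem_prod.2 ⟨ha, mem_inter.2 ⟨hb, b.2⟩⟩,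
        (gndi_eq hR a b).symm⟩)

/-- all stages are contained in the closure -/
theorem gnit_sub (hR : Rep G m) (X : N) (k : ℕ) : ∀ y,
    E y (orec (sing (1 : {x : N // E x G}).1) (fun C => gnst G m X C) (nu k)) →
      ∃ h : E y G, (⟨y, h⟩ : {x : N // E x G}) ∈ Subgroup.closure (EX G X) := by
  induction k with
  | zero =>
    intro y hy
    change E y (orec (sing (1 : {x : N // E x G}).1) (fun C => gnst G m X C) emp) at hy
    rw [orec_zero (gnst_fn G m X), mem_sing] at hy
    subst hy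
    exact ⟨(1 : {x : N // E x G}).2, one_mem _⟩
  | succ k ih =>
    intro y hy
    change E y (orec (sing (1 : {x : N // E x G}).1) (fun C => gnst G m X C) (suc (nu k))) at hy
    rw [orec_suc (gnst_fn G m X) (CUR.nu_mem_om k), mem_gnst hR (fun x hx => (ih x hx).1)] at hy
    rcases hy with hy | ⟨a, b, ha, hb, rfl | rfl⟩
    · exact ih y hy
    · exact ⟨(a * b).2, mul_mem (ih a.1 ha).2 (Subgroup.subset_closure hb)⟩
    · exact ⟨(a * b⁻¹).2, mul_mem (ih a.1 ha).2 (inv_mem (Subgroup.subset_closure hb))⟩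

theorem gnit_of (hR : Rep G m) (X : N) (y : {x : N // E x G})
    (hy : y ∈ Subgroup.closure (EX G X)) : ∃ k : ℕ,
      E y.1 (orec (sing (1 : {x : N // E x G}).1) (fun C => gnst G m X C) (nu k)) := by
  have hsub : ∀ k : ℕ, ∀ x,
      E x (orec (sing (1 : {x : N // E x G}).1) (fun C => gnst G m X C) (nu k)) → E x G :=
    fun k x hx => (gnit_sub hR X k x hx).1
  induction hy using Subgroup.closure_induction_right with
  | one =>
    refine ⟨0, ?_⟩
    change E _ (orec (sing (1 : {x : N // E x G}).1) (fun C => gnst G m X C) emp)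
    rw [orec_zero (gnst_fn G m X), mem_sing]
  | mul_right x hx y hy ih =>
    obtain ⟨k, hk⟩ := ih
    refine ⟨k + 1, ?_⟩
    change E _ (orec (sing (1 : {x : N // E x G}).1) (fun C => gnst G m X C) (suc (nu k)))
    rw [orec_suc (gnst_fn G m X) (CUR.nu_mem_om k), mem_gnst hR (hsub k)]
    exact Or.inr ⟨x, y, hk, hy, Or.inl rfl⟩
  | mul_inv_cancel x hx y hy ih =>
    obtain ⟨k, hk⟩ := ih
    refine ⟨k + 1, ?_⟩
    change E _ (orec (sing (1 : {x : N // E x G}).1) (fun C => gnst G m X C) (suc (nu k)))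
    rw [orec_suc (gnst_fn G m X) (CUR.nu_mem_om k), mem_gnst hR (hsub k)]
    exact Or.inr ⟨x, y, hk, hy, Or.inr rfl⟩

end

theorem gen : GENStmt := by
  intro N _ _ hS G m _ hR
  have hC : CbFacts N := ma_cbt ma_acf N
  refine ⟨fun X => gncl G m (1 : {x : N // E x G}).1 X, gncl_fn G m _, fun X y => ?_,
    fun X hX => ?_⟩
  · have _ := gnit_fn G m (1 : {x : N // E x G}).1 X
    unfold gncl
    rw [mem_sUn]
    constructor
    · rintro ⟨c, hc, hy⟩
      rw [mem_img] at hc
      obtain ⟨n, hn, rfl⟩ := hc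
      obtain ⟨k, rfl⟩ := hS n hn
      exact gnit_sub hR X k y hy
    · rintro ⟨h, hy⟩
      obtain ⟨k, hk⟩ := gnit_of hR X ⟨y, h⟩ hy
      exact ⟨_, mem_img.2 ⟨nu k, CUR.nu_mem_om k, rfl⟩, hk⟩
  · unfold gncl
    refine hC.iUn _ (gnit_fn G m _ X) hC.om fun n hn => ?_
    obtain ⟨k, rfl⟩ := hS n hn
    clear hn
    induction k with
    | zero =>
      change Cb (orec (sing (1 : {x : N // E x G}).1) (fun C => gnst G m X C) emp)
      rw [orec_zero (gnst_fn G m X)]
      exact hC.fin (by
        have := finF.ins (a := (1 : {x : N // E x G}).1) (finF.emp (M := N))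
        refine (congrArg Fnt ?_).mp this
        exact ext fun z => by simp)
    | succ k ih =>
      change Cb (orec (sing (1 : {x : N // E x G}).1) (fun C => gnst G m X C) (suc (nu k)))
      rw [orec_suc (gnst_fn G m X) (CUR.nu_mem_om k)]
      unfold gnst
      have h1 : Cb (inter X G) := hC.sub hX fun z hz => (mem_inter.1 hz).1
      exact hC.bun ih (hC.bun (hC.img _ inferInstance (hC.prod ih h1))
        (hC.img _ inferInstance (hC.prod ih h1)))

end AO
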