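import Pool.Agent.H98.AO.Grp

/-!
Module NF1: quotients by a part of a basis.
-/

namespace AO

open Classical in
theorem nf1 (h1 : FUPStmt) : NF1Stmt := by
  intro G _ B B0 B1 t x z hB hB0 hB1 ht hx hz
  obtain ⟨hinj, hcl⟩ := hB
  have hsurj : Function.Surjective (FreeGroup.lift (fun b : B => (b : G))) := by
    rw [← MonoidHom.range_eq_top, FreeGroup.range_lift_eq_closure]
    simpa using hcl
  let e : FreeGroup B ≃* G := MulEquiv.ofBijective _ ⟨hinj, hsurj⟩
  have heof : ∀ b : B, e (FreeGroup.of b) = b := fun b => by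
    change FreeGroup.lift (fun b : B => (b : G)) (FreeGroup.of b) = b
    simp
  have hesymm : ∀ b : B, e.symm (b : G) = FreeGroup.of b := fun b => by
    rw [MulEquiv.symm_apply_eq, heof]
  let r0 : FreeGroup B →* FreeGroup B :=
    FreeGroup.lift fun b => if (b : G) ∈ B0 then 1 else FreeGroup.of b
  let r1 : FreeGroup B →* FreeGroup B :=
    FreeGroup.lift fun b => if (b : G) ∈ B1 ∧ (b : G) ∉ B0 then FreeGroup.of b else 1
  let C : Subgroup (FreeGroup B) :=
    Subgroup.closure (FreeGroup.of '' {b : B | (b : G) ∈ B1 ∧ (b : G) ∉ B0})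
  -- images
  have hz0 : ∀ g ∈ Subgroup.closure B0, r0 (e.symm g) = 1 := by
    intro g hg
    have : Subgroup.closure B0 ≤ (r0.comp e.symm.toMonoidHom).ker := by
      rw [Subgroup.closure_le]
      intro b hb
      simp only [SetLike.mem_coe, MonoidHom.mem_ker]
      change r0 (e.symm b) = 1
      rw [show b = ((⟨b, hB0 hb⟩ : B) : G) from rfl, hesymm]
      simp [r0, hb]
    exact this hg
  have hx0 : ∀ g ∈ Subgroup.closure (B0 ∪ B1), r0 (e.symm g) ∈ C := by
    intro g hg
    have : Subgroup.closure (B0 ∪ B1) ≤ C.comap (r0.comp e.symm.toMonoidHom) := by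
      rw [Subgroup.closure_le]
      intro b hb
      simp only [SetLike.mem_coe, Subgroup.mem_comap]
      change r0 (e.symm b) ∈ C
      have hbB : b ∈ B := hb.elim (fun h => hB0 h) (fun h => hB1 h)
      rw [show b = ((⟨b, hbB⟩ : B) : G) from rfl, hesymm]
      by_cases hb0 : b ∈ B0
      · simp [r0, hb0, one_mem]
      · have hb1 : b ∈ B1 := hb.resolve_left hb0
        have : r0 (FreeGroup.of ⟨b, hbB⟩) = FreeGroup.of ⟨b, hbB⟩ := by simp [r0, hb0]
        rw [this]
        exact Subgroup.subset_closure ⟨⟨b, hbB⟩, ⟨hb1, hb0⟩, rfl⟩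
    exact this hg
  have hr1 : ∀ g ∈ C, r1 g = g := by
    intro g hg
    have : C ≤ r1.eqLocus (MonoidHom.id _) := by
      rw [Subgroup.closure_le]
      rintro _ ⟨b, hb, rfl⟩
      change r1 (FreeGroup.of b) = FreeGroup.of b
      simp only [r1, FreeGroup.lift_apply_of]
      exact if_pos hb
    exact this hg
  have hr1C : ∀ g, r1 g ∈ C := by
    intro g
    have : r1.range ≤ C := by
      rw [FreeGroup.range_lift_eq_closure, Subgroup.closure_le]
      rintro _ ⟨b, rfl⟩
      simp only
      split_ifs with hb
      · exact Subgroup.subset_closure ⟨b, hb, rfl⟩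
      · exact one_mem _
    exact this ⟨g, rfl⟩
  have hT := h1 B (fun n => r0 (e.symm (x n))) (fun n => r0 (e.symm (t n)))
    (fun n => r1 (r0 (e.symm (t n))))
    (fun n => by
      conv_lhs => rw [ht n]
      simp only [map_mul, map_pow, hz0 _ (hz n), mul_one])
    (fun n => by
      conv_lhs => rw [ht n]
      simp only [map_mul, map_pow, hz0 _ (hz n), mul_one]
      rw [hr1 _ (hx0 _ (hx n))])
  have hT0 : r0 (e.symm (t 0)) ∈ C := by
    have := congrFun hT 0
    rw [this]
    exact hr1C _
  refine ⟨e (r0 (e.symm (t 0))), ?_, ?_⟩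
  · have : C ≤ (Subgroup.closure B1).comap e.toMonoidHom := by
      rw [Subgroup.closure_le]
      rintro _ ⟨b, hb, rfl⟩
      change e (FreeGroup.of b) ∈ Subgroup.closure B1
      rw [heof]
      exact Subgroup.subset_closure hb.1
    exact this hT0
  · -- congruence modulo the normal closure
    have hhom : ((QuotientGroup.mk' (Subgroup.normalClosure B0)).comp
        e.toMonoidHom) = ((QuotientGroup.mk' (Subgroup.normalClosure B0)).comp
        e.toMonoidHom).comp r0 := by
      ext b
      simp only [MonoidHom.comp_apply]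
      by_cases hb : (b : G) ∈ B0
      · have : r0 (FreeGroup.of b) = 1 := by simp [r0, hb]
        rw [this, map_one, map_one]
        change QuotientGroup.mk' (Subgroup.normalClosure B0) (e (FreeGroup.of b)) = 1
        rw [heof, QuotientGroup.mk'_apply, QuotientGroup.eq_one_iff]
        exact Subgroup.subset_normalClosure hb
      · have : r0 (FreeGroup.of b) = FreeGroup.of b := by simp [r0, hb]
        rw [this]
    have h3 := DFunLike.congr_fun hhom (e.symm (t 0))
    simp only [MonoidHom.comp_apply] at h3
    change QuotientGroup.mk' (Subgroup.normalClosure B0) (e (e.symm (t 0))) =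
      QuotientGroup.mk' (Subgroup.normalClosure B0) (e (r0 (e.symm (t 0)))) at h3
    rw [MulEquiv.apply_symm_apply, QuotientGroup.mk'_apply, QuotientGroup.mk'_apply,
      eq_comm, QuotientGroup.eq] at h3
    have hn := (Subgroup.normalClosure_normal (s := B0)).mem_comm h3
    exact hn

end AO
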