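import Pool.Agent.H46.AO.GEN

/-!
Module TRV: internal Schreier transversals.
-/

set_option linter.unusedVariables false
set_option linter.unusedSectionVars false
set_option synthInstance.maxSize 100000

namespace AO

open SW

section
variable {N : Type} [SetStr N] [ZF N]

/-- the members of `C'` in the same right coset of `H` as `y` -/
noncomputable def tvK (G m H D y : N) : N := sep D (fun z => E (gndi G m (opair y z)) H)

theorem tvK_df : DfT (fun v : Fin 5 → N => tvK (v 0) (v 1) (v 2) (v 3) (v 4)) := by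
  unfold tvK; infer_instance

/-- one step: `C` and one member of every coset met by `C B` and not met by `C` -/
noncomputable def tvst (G m B H g C : N) : N :=
  bun C (img (sep (gnst G m B C) (fun y => ∀ z, E z C → ¬ E (gndi G m (opair y z)) H))
    (fun y => app g (tvK G m H (gnst G m B C) y)))

theorem tvst_fn (G m B H g : N) : Fn1 (fun C => tvst G m B H g C) := by
  unfold tvst gnst tvK; infer_instance

theorem tvit_fn (G m B H g e : N) :
    Fn1 (fun n => orec (sing e) (fun C => tvst G m B H g C) n) := by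
  unfold tvst gnst tvK; infer_instance

theorem tvK_fn (G m B H g C : N) : Fn1 (fun y => app g (tvK G m H (gnst G m B C) y)) := by
  unfold tvK; infer_instance

theorem mem_tvK {G m H D y z : N} : E z (tvK G m H D y) ↔ E z D ∧ E (gndi G m (opair y z)) H := by
  unfold tvK; rw [mem_sep]

variable {G m : N} [Group {x : N // E x G}]

theorem gnst_sub (hR : Rep G m) {X C : N} (hC : ∀ x, E x C → E x G) :
    ∀ y, E y (gnst G m X C) → E y G := by
  intro y hy
  rw [mem_gnst hR hC] at hy
  rcases hy with hy | ⟨a, b, _, _, rfl | rfl⟩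
  · exact hC y hy
  · exact (a * b).2
  · exact (a * b⁻¹).2

/-- the members of one step -/
theorem mem_tvst (hR : Rep G m) {B H g C : N} (hC : ∀ x, E x C → E x G)
    (hg : ChF G g) (S : Subgroup {x : N // E x G}) (hS : ∀ x, x ∈ S ↔ E x.1 H) {t : N} :
    E t (tvst G m B H g C) ↔ E t C ∨ ∃ y : {x : N // E x G}, E y.1 (gnst G m B C) ∧
      (∀ z : {x : N // E x G}, E z.1 C → y * z⁻¹ ∉ S) ∧
      t = app g (tvK G m H (gnst G m B C) y.1) := by
  have h0 := tvK_fn G m B H g C
  unfold tvst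
  rw [mem_bun, mem_img]
  refine or_congr Iff.rfl ⟨?_, ?_⟩
  · rintro ⟨y, hy, rfl⟩
    rw [mem_sep] at hy
    refine ⟨⟨y, gnst_sub hR hC y hy.1⟩, hy.1, fun z hz hS' => ?_, rfl⟩
    refine hy.2 z.1 hz ?_
    rw [hS] at hS'
    rwa [gndi_eq hR ⟨y, gnst_sub hR hC y hy.1⟩ z]
  · rintro ⟨y, hy, h, rfl⟩
    refine ⟨y.1, ?_, rfl⟩
    rw [mem_sep]
    refine ⟨hy, fun z hz hE => ?_⟩
    refine h ⟨z, hC z hz⟩ hz ?_
    rw [hS, ← gndi_eq hR y ⟨z, hC z hz⟩]
    exact hE

/-- the chosen element -/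
theorem tv_app (hR : Rep G m) {B H g C : N} (hC : ∀ x, E x C → E x G)
    (hg : ChF G g) (S : Subgroup {x : N // E x G}) (hS : ∀ x, x ∈ S ↔ E x.1 H)
    (y : {x : N // E x G}) (hy : E y.1 (gnst G m B C)) :
    ∃ c : {x : N // E x G}, app g (tvK G m H (gnst G m B C) y.1) = c.1 ∧
      E c.1 (gnst G m B C) ∧ y * c⁻¹ ∈ S := by
  have h1 : Sub (tvK G m H (gnst G m B C) y.1) G := fun z hz =>
    gnst_sub hR hC z (mem_tvK.1 hz).1
  have h2 : E y.1 (tvK G m H (gnst G m B C) y.1) := by
    rw [mem_tvK]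
    refine ⟨hy, ?_⟩
    rw [gndi_eq hR y y, ← hS, mul_inv_cancel]
    exact one_mem _
  have h3 := hg _ h1 ⟨_, h2⟩
  refine ⟨⟨_, h1 _ h3⟩, rfl, (mem_tvK.1 h3).1, ?_⟩
  rw [hS, ← gndi_eq hR y ⟨_, h1 _ h3⟩]
  exact (mem_tvK.1 h3).2

end

theorem trv : TRVStmt := by
  intro N _ _ hSt G m B H _ hR hB hcl S hS
  obtain ⟨g, hg⟩ := ma_acf N G
  -- the stages
  obtain ⟨T, hT⟩ : ∃ T : ℕ → N, ∀ k,
      T k = orec (sing (1 : {x : N // E x G}).1) (fun C => tvst G m B H g C) (nu k) :=
    ⟨_, fun _ => rfl⟩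
  have hT0 : T 0 = sing (1 : {x : N // E x G}).1 := by
    rw [hT]
    exact orec_zero (tvst_fn G m B H g)
  have hTs : ∀ k, T (k + 1) = tvst G m B H g (T k) := by
    intro k
    rw [hT, hT]
    exact orec_suc (tvst_fn G m B H g) (CUR.nu_mem_om k)
  have hTG : ∀ k x, E x (T k) → E x G := by
    intro k
    induction k with
    | zero =>
      intro x hx
      rw [hT0, mem_sing] at hx
      subst hx
      exact (1 : {x : N // E x G}).2
    | succ k ih =>
      intro x hx
      rw [hTs, mem_tvst hR ih hg S hS] at hx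
      rcases hx with hx | ⟨y, hy, _, rfl⟩
      · exact ih x hx
      · obtain ⟨c, hc, _⟩ := tv_app hR ih hg S hS y hy
        rw [hc]
        exact c.2
  have hmono : ∀ k x, E x (T k) → E x (T (k + 1)) := by
    intro k x hx
    rw [hTs, mem_tvst hR (hTG k) hg S hS]
    exact Or.inl hx
  have hmono' : ∀ k l x, k ≤ l → E x (T k) → E x (T l) := by
    intro k l x hkl hx
    induction l, hkl using Nat.le_induction with
    | base => exact hx
    | succ l _ ih => exact hmono l x ih
  -- one step in terms of the group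
  have hstep : ∀ k (t : {x : N // E x G}), E t.1 (T (k + 1)) → E t.1 (T k) ∨
      ∃ y : {x : N // E x G}, E y.1 (gnst G m B (T k)) ∧
        (∀ z : {x : N // E x G}, E z.1 (T k) → y * z⁻¹ ∉ S) ∧ y * t⁻¹ ∈ S ∧
        E t.1 (gnst G m B (T k)) ∧ t.1 = app g (tvK G m H (gnst G m B (T k)) y.1) := by
    intro k t ht
    rw [hTs, mem_tvst hR (hTG k) hg S hS] at ht
    rcases ht with ht | ⟨y, hy, h1, h2⟩
    · exact Or.inl ht
    · right
      obtain ⟨c, hc1, hc2, hc3⟩ := tv_app hR (hTG k) hg S hS y hy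
      have h3 : t = c := Subtype.ext (h2.trans hc1)
      subst h3
      exact ⟨y, hy, h1, hc3, hc2, h2⟩
  have hinj : ∀ k (t t' : {x : N // E x G}), E t.1 (T k) → E t'.1 (T k) → t * t'⁻¹ ∈ S →
      t = t' := by
    intro k
    induction k with
    | zero =>
      intro t t' ht ht' _
      rw [hT0, mem_sing] at ht ht'
      exact Subtype.ext (ht.trans ht'.symm)
    | succ k ih =>
      intro t t' ht ht' h
      rcases hstep k t ht with ht | ⟨y, hy, h1, h2, _, h3⟩
      · rcases hstep k t' ht' with ht' | ⟨y', hy', h1', h2', _, h3'⟩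
        · exact ih t t' ht ht' h
        · exfalso
          refine h1' t ht ?_
          have h5 := mul_mem h2' (inv_mem h)
          have e : y' * t'⁻¹ * (t * t'⁻¹)⁻¹ = y' * t⁻¹ := by group
          rwa [e] at h5
      · rcases hstep k t' ht' with ht' | ⟨y', hy', h1', h2', _, h3'⟩
        · exfalso
          refine h1 t' ht' ?_
          have h5 := mul_mem h2 h
          have e : y * t⁻¹ * (t * t'⁻¹) = y * t'⁻¹ := by group
          rwa [e] at h5
        · have h5 : y * y'⁻¹ ∈ S := by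
            have h6 := mul_mem (mul_mem h2 h) (inv_mem h2')
            have e : y * t⁻¹ * (t * t'⁻¹) * (y' * t'⁻¹)⁻¹ = y * y'⁻¹ := by group
            rwa [e] at h6
          apply Subtype.ext
          rw [h3, h3']
          congr 1
          refine ext fun z => ?_
          rw [mem_tvK, mem_tvK]
          refine and_congr_right fun hz => ?_
          have hzG := gnst_sub hR (hTG k) z hz
          rw [gndi_eq hR y ⟨z, hzG⟩, gndi_eq hR y' ⟨z, hzG⟩, ← hS, ← hS]
          constructor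
          · intro h7
            have h8 := mul_mem (inv_mem h5) h7
            have e : (y * y'⁻¹)⁻¹ * (y * (⟨z, hzG⟩ : {x : N // E x G})⁻¹) =
              y' * (⟨z, hzG⟩ : {x : N // E x G})⁻¹ := by group
            rwa [e] at h8
          · intro h7
            have h8 := mul_mem h5 h7
            have e : (y * y'⁻¹) * (y' * (⟨z, hzG⟩ : {x : N // E x G})⁻¹) =
              y * (⟨z, hzG⟩ : {x : N // E x G})⁻¹ := by group
            rwa [e] at h8
  have hnext : ∀ k (y : {x : N // E x G}), E y.1 (gnst G m B (T k)) →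
      ∃ t : {x : N // E x G}, E t.1 (T (k + 1)) ∧ y * t⁻¹ ∈ S := by
    intro k y hy
    by_cases h : ∃ z : {x : N // E x G}, E z.1 (T k) ∧ y * z⁻¹ ∈ S
    · obtain ⟨z, hz, h⟩ := h
      exact ⟨z, hmono k _ hz, h⟩
    · push Not at h
      obtain ⟨c, hc1, hc2, hc3⟩ := tv_app hR (hTG k) hg S hS y hy
      refine ⟨c, ?_, hc3⟩
      rw [hTs, mem_tvst hR (hTG k) hg S hS]
      exact Or.inr ⟨y, hy, h, hc1.symm⟩
  have hcov : ∀ x : {x : N // E x G}, ∃ k, ∃ t : {x : N // E x G}, E t.1 (T k) ∧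
      x * t⁻¹ ∈ S := by
    intro x
    have hx : x ∈ Subgroup.closure (EX G B) := by rw [hcl]; trivial
    induction hx using Subgroup.closure_induction_right with
    | one =>
      refine ⟨0, 1, by rw [hT0, mem_sing], ?_⟩
      rw [inv_one, mul_one]
      exact one_mem _
    | mul_right x hx b hb ih =>
      obtain ⟨k, t, ht, h⟩ := ih
      obtain ⟨c, hc, h'⟩ := hnext k (t * b) (by
        rw [mem_gnst hR (hTG k)]
        exact Or.inr ⟨t, b, ht, hb, Or.inl rfl⟩)
      refine ⟨k + 1, c, hc, ?_⟩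
      have h8 := mul_mem h h'
      have e : x * t⁻¹ * (t * b * c⁻¹) = x * b * c⁻¹ := by group
      rwa [e] at h8
    | mul_inv_cancel x hx b hb ih =>
      obtain ⟨k, t, ht, h⟩ := ih
      obtain ⟨c, hc, h'⟩ := hnext k (t * b⁻¹) (by
        rw [mem_gnst hR (hTG k)]
        exact Or.inr ⟨t, b, ht, hb, Or.inr rfl⟩)
      refine ⟨k + 1, c, hc, ?_⟩
      have h8 := mul_mem h h'
      have e : x * t⁻¹ * (t * b⁻¹ * c⁻¹) = x * b⁻¹ * c⁻¹ := by group
      rwa [e] at h8
  -- the union
  obtain ⟨U, hU⟩ : ∃ U : N, ∀ x, E x U ↔ ∃ k : ℕ, E x (T k) := by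
    have _ := tvit_fn G m B H g (1 : {x : N // E x G}).1
    refine ⟨sUn (img om (fun n => orec (sing (1 : {x : N // E x G}).1)
      (fun C => tvst G m B H g C) n)), fun x => ?_⟩
    rw [mem_sUn]
    constructor
    · rintro ⟨c, hc, hx⟩
      rw [mem_img] at hc
      obtain ⟨n, hn, rfl⟩ := hc
      obtain ⟨k, rfl⟩ := hSt n hn
      exact ⟨k, by rw [hT]; exact hx⟩
    · rintro ⟨k, hx⟩
      rw [hT] at hx
      exact ⟨_, mem_img.2 ⟨nu k, CUR.nu_mem_om k, rfl⟩, hx⟩
  classical
  refine ⟨U, fun t => if h : ∃ k : ℕ, E t.1 (T k) then Nat.find h else 0, ?_, ?_, ?_, ?_⟩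
  · change E _ U
    rw [hU]
    exact ⟨0, by rw [hT0, mem_sing]⟩
  · intro t ht hne
    have ht' : ∃ k : ℕ, E t.1 (T k) := (hU _).1 ht
    have hk := Nat.find_spec ht'
    have hmin : ∀ j, j < Nat.find ht' → ¬ E t.1 (T j) := fun j hj => Nat.find_min ht' hj
    beta_reduce
    rw [dif_pos ht']
    generalize Nat.find ht' = k at hk hmin
    cases k with
    | zero =>
      rw [hT0, mem_sing] at hk
      exact absurd (Subtype.ext hk) hne
    | succ j =>
      have hj := hmin j (Nat.lt_succ_self j)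
      rcases hstep j t hk with h | ⟨y, hy, h1, h2, h3, _⟩
      · exact absurd h hj
      rw [mem_gnst hR (hTG j)] at h3
      have hlt : ∀ a : {x : N // E x G}, E a.1 (T j) →
          (if h : ∃ k : ℕ, E a.1 (T k) then Nat.find h else 0) < j + 1 := by
        intro a ha
        rw [dif_pos ⟨j, ha⟩]
        exact Nat.lt_succ_of_le (Nat.find_min' _ ha)
      rcases h3 with h3 | ⟨a, b, ha, hb, h4 | h4⟩
      · exact absurd h3 hj
      · exact ⟨a, (hU _).2 ⟨j, ha⟩, hlt a ha, b, hb, Or.inl (Subtype.ext h4)⟩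
      · refine ⟨a, (hU _).2 ⟨j, ha⟩, hlt a ha, b, hb, Or.inr ?_⟩
        have : t = a * b⁻¹ := Subtype.ext h4
        rw [this]
        group
  · intro x
    obtain ⟨k, t, ht, h⟩ := hcov x
    exact ⟨t, (hU _).2 ⟨k, ht⟩, h⟩
  · intro t ht t' ht' h
    obtain ⟨k, hk⟩ := (hU _).1 ht
    obtain ⟨l, hl⟩ := (hU _).1 ht'
    exact hinj (max k l) t t' (hmono' k _ _ (le_max_left _ _) hk)
      (hmono' l _ _ (le_max_right _ _) hl) h

end AO
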